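import Mathlib
import Pool.Agent.H19.LS.Cnt

/-!
# [AU] MP_8923e7_nt, limit laws along unbounded chains: from counts of windows to counts of indices, uniformly

`windowsU`: for every `T` there are a constant `d0` and scales `xs M` (a constant times `M log M`) so that for all large
`M` every set of at least `A xs M` windows of length `log (xs M)` below `T xs M`, each with a prime `p_n` with `P n`,
gives at least `d0 A M` indices `n < M` with `P n`.
-/

set_option autoImplicit false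

namespace Pool.Agent.H19.AU

open Finset Filter

private theorem cnt_pc : ∃ C : ℝ, 0 < C ∧ ∀ X : ℕ, 2 ≤ X →
    (Nat.primeCounting X : ℝ) ≤ C * X / Real.log X := by
  obtain ⟨C, hC, h⟩ := Pool.Agent.H5.Short.pi_le
  refine ⟨C, hC, fun X hX => ?_⟩
  have h1 := h X hX
  have e : ((Icc 1 X).filter Nat.Prime).card = Nat.primeCounting X := by
    rw [Nat.primeCounting, Nat.primeCounting', Nat.count_eq_card_filter_range]
    congr 1
    ext p
    simp only [mem_filter, mem_Icc, mem_range]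
    constructor
    · rintro ⟨⟨_, h2⟩, h3⟩
      exact ⟨by omega, h3⟩
    · rintro ⟨h1, h2⟩
      exact ⟨⟨h2.one_lt.le, by omega⟩, h2⟩
  rw [e] at h1
  exact h1

/-- `log x ≤ K x` for large `x` -/
private theorem log_small (K : ℝ) (hK : 0 < K) : ∀ᶠ x : ℝ in atTop, Real.log x ≤ K * x := by
  have h1 := Real.isLittleO_log_id_atTop.def hK
  filter_upwards [h1, eventually_ge_atTop (1 : ℝ)] with x hx hx1
  rw [Real.norm_of_nonneg (Real.log_nonneg hx1), id, Real.norm_of_nonneg (by linarith)] at hx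
  exact hx

/-- **from windows to counts of indices, uniformly** -/
theorem windowsU (T : ℝ) (hT : 1 ≤ T) : ∃ (d0 : ℝ) (xs : ℕ → ℝ), 0 < d0 ∧ Tendsto xs atTop atTop ∧
    ∀ᶠ M : ℕ in atTop, Real.log M ≤ Real.log (xs M) ∧ Real.log (xs M) ≤ 2 * Real.log M ∧
      ∀ (P : ℕ → Prop) (A : ℝ) (S : Finset ℕ), 0 ≤ A → A * xs M ≤ S.card →
        (∀ N ∈ S, (N : ℝ) ≤ T * xs M ∧
          ∃ n, P n ∧ N ≤ Nat.nth Nat.Prime n ∧ (Nat.nth Nat.Prime n : ℝ) ≤ N + Real.log (xs M)) →
        d0 * A * M ≤ ({n : ℕ | n < M ∧ P n}.ncard : ℝ) := by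
  obtain ⟨C, hC, hpc⟩ := cnt_pc
  obtain ⟨κ, hκ⟩ : ∃ κ : ℝ, κ = 1 / (4 * C * T) := ⟨_, rfl⟩
  have hT0 : 0 < T := by linarith
  have hκ0 : 0 < κ := by rw [hκ]; positivity
  have hCT : 4 * C * T * κ = 1 := by rw [hκ]; field_simp
  -- the scale
  have hlogM : Tendsto (fun M : ℕ => Real.log (M : ℝ)) atTop atTop :=
    Real.tendsto_log_atTop.comp tendsto_natCast_atTop_atTop
  have hx : Tendsto (fun M : ℕ => κ * (M * Real.log (M : ℝ))) atTop atTop :=
    (tendsto_natCast_atTop_atTop.atTop_mul_atTop₀ hlogM).const_mul_atTop hκ0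
  have hls : ∀ᶠ x : ℝ in atTop, Real.log x ≤ T * x := by
    filter_upwards [log_small 1 one_pos, eventually_ge_atTop (1 : ℝ)] with x h1 h2
    nlinarith
  have hM1 : ∀ᶠ M : ℕ in atTop, κ * Real.log (M : ℝ) ≤ M := by
    have h1 := tendsto_natCast_atTop_atTop.eventually (log_small (1 / κ) (by positivity))
    filter_upwards [h1] with M hM
    have h2 := mul_le_mul_of_nonneg_left hM hκ0.le
    rwa [← mul_assoc, mul_one_div_cancel hκ0.ne', one_mul] at h2
  refine ⟨κ / 3, fun M => κ * (M * Real.log (M : ℝ)), by positivity, hx, ?_⟩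
  filter_upwards [hx.eventually hls, hM1, hlogM.eventually_ge_atTop 1,
    hlogM.eventually_ge_atTop (1 / κ), hx.eventually_ge_atTop 2, eventually_ge_atTop 2,
    hlogM.eventually_ge_atTop (1 / (T * κ))] with M hM2 hM3 hM4 hM5 hM6 hM7 hM8
  obtain ⟨x, hxd⟩ : ∃ x : ℝ, x = κ * (M * Real.log (M : ℝ)) := ⟨_, rfl⟩
  rw [← hxd] at hM2 hM6 ⊢
  have hMr : (2 : ℝ) ≤ M := by exact_mod_cast hM7
  have hlM : 0 < Real.log (M : ℝ) := by linarith
  have hx0 : 0 < x := by linarith
  have hlx0 : 0 ≤ Real.log x := Real.log_nonneg (by linarith)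
  -- `log M ≤ log x ≤ 2 log M`
  have hlx : Real.log x ≤ 2 * Real.log (M : ℝ) := by
    have h1 : x ≤ (M : ℝ) ^ 2 := by
      rw [hxd, sq]
      calc κ * (M * Real.log (M : ℝ)) = M * (κ * Real.log (M : ℝ)) := by ring
        _ ≤ M * M := mul_le_mul_of_nonneg_left hM3 (by linarith)
    have h2 := Real.log_le_log hx0 h1
    rw [Real.log_pow] at h2
    exact_mod_cast h2
  have hxl : Real.log (M : ℝ) ≤ Real.log x := by
    refine Real.log_le_log (by linarith) ?_
    rw [hxd]
    have h1 : 1 ≤ κ * Real.log (M : ℝ) := by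
      rw [div_le_iff₀ hκ0] at hM5
      linarith
    calc (M : ℝ) = M * 1 := (mul_one _).symm
      _ ≤ M * (κ * Real.log (M : ℝ)) := mul_le_mul_of_nonneg_left h1 (by linarith)
      _ = κ * (M * Real.log (M : ℝ)) := by ring
  refine ⟨hxl, hlx, fun P A S hA hS1 hS2 => ?_⟩
  -- the number of primes up to `2 T x`
  have hY : ∀ p : ℕ, (p : ℝ) ≤ T * x + Real.log x → p.Prime → Nat.primeCounting p ≤ M := by
    intro p hp _
    obtain ⟨Y, hYd⟩ : ∃ Y : ℕ, Y = ⌊2 * (T * x)⌋₊ := ⟨_, rfl⟩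
    have h1 : p ≤ Y := by
      rw [hYd]
      refine Nat.le_floor ?_
      linarith
    have hTx : 0 ≤ 2 * (T * x) := by positivity
    have h2 : (Y : ℝ) ≤ 2 * (T * x) := by rw [hYd]; exact Nat.floor_le hTx
    have h3 : (M : ℝ) ≤ Y := by
      have h4 := Nat.lt_floor_add_one (2 * (T * x))
      rw [← hYd] at h4
      have h5 : 2 * (T * x) = 2 * (T * κ * Real.log (M : ℝ)) * M := by rw [hxd]; ring
      have h6 : 1 ≤ T * κ * Real.log (M : ℝ) := by
        rw [div_le_iff₀ (by positivity)] at hM8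
        linarith
      have h7 : 2 * (M : ℝ) ≤ 2 * (T * x) := by
        rw [h5]
        nlinarith
      linarith
    have h4 : (2 : ℕ) ≤ Y := by
      have : M ≤ Y := by exact_mod_cast h3
      omega
    have h5 := hpc Y h4
    have h6 : (Nat.primeCounting p : ℝ) ≤ Nat.primeCounting Y := by
      exact_mod_cast Nat.monotone_primeCounting h1
    have h7 : Real.log (M : ℝ) ≤ Real.log (Y : ℝ) := Real.log_le_log (by linarith) h3
    have h8 : C * Y / Real.log (Y : ℝ) ≤ M := by
      rw [div_le_iff₀ (by linarith)]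
      calc C * (Y : ℝ) ≤ C * (2 * (T * x)) := mul_le_mul_of_nonneg_left h2 hC.le
        _ = (4 * C * T * κ) * (M * Real.log (M : ℝ)) / 2 := by rw [hxd]; ring
        _ = M * Real.log (M : ℝ) / 2 := by rw [hCT, one_mul]
        _ ≤ M * Real.log (M : ℝ) := by
            have : 0 ≤ (M : ℝ) * Real.log (M : ℝ) := by positivity
            linarith
        _ ≤ M * Real.log (Y : ℝ) := mul_le_mul_of_nonneg_left h7 (by linarith)
    have h9 : (Nat.primeCounting p : ℝ) ≤ M := by linarith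
    exact_mod_cast h9
  have hcs := Pool.Agent.H19.LS.count_scale (T := T) (lam := 1) (x := x) P M
    (by rw [one_mul]; exact hlx0) (by simpa only [one_mul] using hY) S
    (by simpa only [one_mul] using hS2)
  rw [one_mul] at hcs
  -- conclusion
  obtain ⟨R, hR⟩ : ∃ R : ℝ, R = ({n : ℕ | n < M ∧ P n}.ncard : ℝ) := ⟨_, rfl⟩
  rw [← hR] at hcs ⊢
  have hR0 : 0 ≤ R := by rw [hR]; positivity
  have h1 : Real.log x + 1 ≤ 3 * Real.log (M : ℝ) := by linarith
  have h2 : A * x ≤ R * (3 * Real.log (M : ℝ)) :=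
    (hS1.trans hcs).trans (mul_le_mul_of_nonneg_left h1 hR0)
  have h3 : A * κ * M * Real.log (M : ℝ) ≤ R * 3 * Real.log (M : ℝ) := by
    calc A * κ * M * Real.log (M : ℝ) = A * x := by rw [hxd]; ring
      _ ≤ R * (3 * Real.log (M : ℝ)) := h2
      _ = R * 3 * Real.log (M : ℝ) := by ring
  have h4 : A * κ * M ≤ R * 3 := le_of_mul_le_mul_right h3 hlM
  calc κ / 3 * A * M = A * κ * M / 3 := by ring
    _ ≤ R := by linarith

end Pool.Agent.H19.AU
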